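import Pool.Agent.H4.Lit.Key
import Pool.Agent.H42.MJ.Local

set_option autoImplicit false
open Set Topology Filter
open scoped Real
open Pool.Agent.H81.Q1 Pool.Agent.H42.MJ

/-! # Backtracking, good sub-arcs, and the parameter of the contour is almost decreasing -/

namespace Pool.Agent.H4.Lit

/-- A backtrack forces a double pass. -/
lemma backtrack {T : ℕ → ℝ} {N : ℕ} {ω ε : ℝ} (hN : 0 < N)
    (hper : ∀ k, T (k + N) = T k - 2 * π) (hstep : ∀ k, |T (k + 1) - T k| < ω) (hε : 0 < ε)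
    (hεω : ε + ω ≤ 2 * π) {i i' : ℕ} (hi : i ≤ i') (hT : T i + ε ≤ T i') :
    ∃ (u : ℝ) (i1 j1 i2 j2 : ℕ), i1 ≤ j1 ∧ j1 ≤ i2 ∧ i2 ≤ j2 ∧ j2 ≤ i1 + N ∧ u + ε ≤ T i1 ∧
      T j1 ≤ u ∧ u + ε - 2 * π ≤ T i2 ∧ T j2 ≤ u - 2 * π := by
  have hpi := Real.two_pi_pos
  have hperN : ∀ n k, T (k + n * N) = T k - n * (2 * π) := by
    intro n
    induction n with
    | zero => intro k; simp
    | succ n ih =>
      intro k
      rw [show k + (n + 1) * N = (k + n * N) + N by ring, hper, ih]; push_cast; ring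
  set n := (i' - i) / N with hn
  set i0 := i + n * N with hi0
  have h1 : n * N ≤ i' - i := Nat.div_mul_le_self _ _
  have h2 : i' - i < n * N + N := by
    have := Nat.lt_div_mul_add (a := i' - i) hN
    rw [← hn] at this
    exact this
  have h3 : i0 ≤ i' := by omega
  have h4 : i' < i0 + N := by omega
  have h5 : T i0 + ε ≤ T i' := by
    rw [hi0, hperN]
    have : 0 ≤ (n : ℝ) * (2 * π) := by positivity
    linarith
  have h6 : T (i0 + N) ≤ T i' - ε := by rw [hper]; linarith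
  classical
  have hex : ∃ k, i' ≤ k ∧ T k ≤ T i' - ε := ⟨i0 + N, h4.le, h6⟩
  set j1 := Nat.find hex with hj1
  obtain ⟨k1, k2⟩ := Nat.find_spec hex
  rw [← hj1] at k1 k2
  have k3 : j1 ≤ i0 + N := Nat.find_min' hex ⟨h4.le, h6⟩
  have k4 : i' ≠ j1 := by intro h; rw [← h] at k2; linarith
  have k5 : T i' - ε < T (j1 - 1) := by
    by_contra h
    push Not at h
    exact Nat.find_min hex (m := j1 - 1) (by omega) ⟨by omega, h⟩
  have k6 := abs_lt.1 (hstep (j1 - 1))
  rw [show j1 - 1 + 1 = j1 by omega] at k6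
  refine ⟨T i' - ε, i', j1, j1, i0 + N, by omega, le_rfl, k3, by omega, by linarith, k2,
    by linarith, ?_⟩
  rw [hper]; linarith

/-- A sub-arc which is almost straight. -/
lemma good_arc {ρ : ℝ → ℂ} {p q : ℝ} (hpq : p < q) (hne : ρ p ≠ ρ q)
    (hfin : eVariationOn ρ (Icc p q) ≠ ⊤) :
    ∃ s t M : ℝ, p ≤ s ∧ s < t ∧ t ≤ q ∧ 0 ≤ M ∧
      eVariationOn ρ (Icc s t) ≤ ENNReal.ofReal M ∧ M < √2 * ‖ρ s - ρ t‖ := by
  by_contra hcon
  push Not at hcon
  have key : ∀ s t, p ≤ s → s ≤ t → t ≤ q →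
      ENNReal.ofReal (√2) * edist (ρ t) (ρ s) ≤ eVariationOn ρ (Icc s t) := by
    intro s t hs hst ht
    rcases hst.eq_or_lt with rfl | hst'
    · simp
    have hsub : eVariationOn ρ (Icc s t) ≤ eVariationOn ρ (Icc p q) :=
      eVariationOn.mono _ (Icc_subset_Icc hs ht)
    have hft : eVariationOn ρ (Icc s t) ≠ ⊤ := ne_top_of_le_ne_top hfin hsub
    have h1 := hcon s t (eVariationOn ρ (Icc s t)).toReal hs hst' ht ENNReal.toReal_nonneg
      (by rw [ENNReal.ofReal_toReal hft])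
    rw [edist_dist, dist_eq_norm, norm_sub_rev, ← ENNReal.ofReal_mul (by positivity)]
    rw [← ENNReal.ofReal_toReal hft]
    exact ENNReal.ofReal_le_ofReal h1
  have hsum : ∀ (n : ℕ) (u : ℕ → ℝ), Monotone u → (∀ i, u i ∈ Icc p q) →
      ∑ i ∈ Finset.range n, eVariationOn ρ (Icc (u i) (u (i + 1))) ≤
        eVariationOn ρ (Icc (u 0) (u n)) := by
    intro n u hu hmem
    induction n with
    | zero => simp
    | succ n ih =>
      rw [Finset.sum_range_succ]
      have h1 := eVariationOn.Icc_add_Icc ρ (s := univ) (a := u 0) (b := u n) (c := u (n + 1))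
        (hu (Nat.zero_le n)) (hu (Nat.le_succ n)) (mem_univ _)
      simp only [univ_inter] at h1
      rw [← h1]
      exact add_le_add ih le_rfl
  have h2 : ENNReal.ofReal (√2) * eVariationOn ρ (Icc p q) ≤ eVariationOn ρ (Icc p q) := by
    conv_lhs => rw [eVariationOn, ENNReal.mul_iSup]
    refine iSup_le fun z => ?_
    obtain ⟨n, u, hu, hmem⟩ := z
    simp only
    rw [Finset.mul_sum]
    calc ∑ i ∈ Finset.range n, ENNReal.ofReal (√2) * edist (ρ (u (i + 1))) (ρ (u i))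
        ≤ ∑ i ∈ Finset.range n, eVariationOn ρ (Icc (u i) (u (i + 1))) :=
          Finset.sum_le_sum fun i _ => key _ _ (hmem i).1 (hu (Nat.le_succ i)) (hmem (i + 1)).2
      _ ≤ eVariationOn ρ (Icc (u 0) (u n)) := hsum n u hu hmem
      _ ≤ eVariationOn ρ (Icc p q) := eVariationOn.mono _ (Icc_subset_Icc (hmem 0).1 (hmem n).2)
  have h3 : eVariationOn ρ (Icc p q) = 0 := by
    by_contra h0
    have h4 : (1 : ENNReal) < ENNReal.ofReal (√2) := by
      rw [← ENNReal.ofReal_one, ENNReal.ofReal_lt_ofReal_iff (by positivity)]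
      rw [Real.lt_sqrt (by norm_num)]; norm_num
    have h5 : 1 * eVariationOn ρ (Icc p q) < ENNReal.ofReal (√2) * eVariationOn ρ (Icc p q) :=
      (ENNReal.mul_lt_mul_iff_left h0 hfin).2 h4
    rw [one_mul] at h5
    exact absurd h2 (not_le.2 h5)
  apply hne
  have h6 := eVariationOn.edist_le ρ (s := Icc p q) (x := p) (y := q) ⟨le_rfl, hpq.le⟩
    ⟨hpq.le, le_rfl⟩
  rw [h3] at h6
  exact edist_eq_zero.1 (le_antisymm h6 bot_le)

end Pool.Agent.H4.Lit
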