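import Pool.Agent.H4.Lit.Defs
import Pool.Agent.H42.MJ.Contour

set_option autoImplicit false
open Set Topology Filter
open Pool.Agent.H81.Q1 Pool.Agent.H42.MJ

/-! # Crossings of lattice lines by the contour -/

namespace Pool.Agent.H4.Lit

/-- The coordinate in direction `p`. -/
def lq (p : ZMod 4) (v : ℤ × ℤ) : ℤ := v.1 * (dir p).1 + v.2 * (dir p).2

/-- Twice the coordinate in direction `p` of the centre of a face. -/
def fp (p : ZMod 4) (f : ℤ × ℤ) : ℤ := 2 * lq p f + ((dir p).1 + (dir p).2)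

lemma lq_add (p : ZMod 4) (u v : ℤ × ℤ) : lq p (u + v) = lq p u + lq p v := by
  simp only [lq, Prod.fst_add, Prod.snd_add]; ring

lemma lq_dir : ∀ p : ZMod 4, lq p (dir p) = 1 := by decide
lemma lq_dir_one : ∀ p : ZMod 4, lq p (dir (p + 1)) = 0 := by decide

/-- The face behind a closed corner. -/
lemma fp_closed (p q : ZMod 4) (v : ℤ × ℤ) :
    (q = p + 1 ∧ fp p (Corner.face (v, q)) = 2 * lq p v - 1 ∧
      fp p (Corner.face (v, q - 1)) = 2 * lq p v + 1) ∨
    fp p (Corner.face (v, q - 1)) ≤ fp p (Corner.face (v, q)) := by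
  obtain ⟨a, b⟩ := v
  have d1 : (2 : ZMod 4) ≠ 0 := by decide
  have d2 : (2 : ZMod 4) ≠ 1 := by decide
  have d3 : (3 : ZMod 4) ≠ 0 := by decide
  have d4 : (3 : ZMod 4) ≠ 1 := by decide
  have d5 : (3 : ZMod 4) ≠ 2 := by decide
  have d6 : (1 : ZMod 4) ≠ 0 := by decide
  have e0 : (0 - 1 : ZMod 4) = 3 := by decide
  have e1 : (1 - 1 : ZMod 4) = 0 := by decide
  have e2 : (2 - 1 : ZMod 4) = 1 := by decide
  have e3 : (3 - 1 : ZMod 4) = 2 := by decide
  have f0 : (0 + 1 : ZMod 4) = 1 := by decide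
  have f1 : (1 + 1 : ZMod 4) = 2 := by decide
  have f2 : (2 + 1 : ZMod 4) = 3 := by decide
  have f3 : (3 + 1 : ZMod 4) = 0 := by decide
  rcases zmod4 p with rfl | rfl | rfl | rfl <;> rcases zmod4 q with rfl | rfl | rfl | rfl <;>
    simp only [e0, e1, e2, e3, f0, f1, f2, f3] <;>
    first
      | (left; refine ⟨by trivial, ?_, ?_⟩ <;>
          simp [fp, lq, Corner.face, dir_0, dir_1, dir_2, dir_3, d1, d2, d3, d4, d5, d6] <;>
          omega)
      | (right
         simp [fp, lq, Corner.face, dir_0, dir_1, dir_2, dir_3, d1, d2, d3, d4, d5, d6] <;> omega)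

/-- **Crossing a lattice line.** -/
lemma crossing {E : Set (Sym2 (ℤ × ℤ))} {p : ZMod 4} {a : Corner} {m : ℤ} {i j : ℕ} (hij : i ≤ j)
    (h1 : fp p ((next E)^[i] a).face ≤ 2 * m) (h2 : 2 * m < fp p ((next E)^[j] a).face) :
    ∃ k, i ≤ k ∧ k < j ∧ ((next E)^[k] a).edge ∉ E ∧ ((next E)^[k] a).2 = p + 1 ∧
      lq p ((next E)^[k] a).1 = m := by
  induction j, hij using Nat.le_induction with
  | base => omega
  | succ j hij ih =>
    by_cases hj : 2 * m < fp p ((next E)^[j] a).face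
    · obtain ⟨k, h3, h4, h5⟩ := ih hj
      exact ⟨k, h3, by omega, h5⟩
    · push Not at hj
      rw [Function.iterate_succ_apply'] at h2
      set c := (next E)^[j] a with hc
      by_cases hE : c.edge ∈ E
      · exfalso
        have h3 : (next E c).face = c.face := by
          unfold next
          rw [if_pos hE]
          exact face_follow
        rw [h3] at h2; omega
      · have h3 : next E c = (c.1, c.2 - 1) := by unfold next; rw [if_neg hE]
        rw [h3] at h2
        have hcc : c.face = Corner.face (c.1, c.2) := rfl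
        rw [hcc] at hj
        refine ⟨j, hij, Nat.lt_succ_self j, hE, ?_⟩
        rcases fp_closed p c.2 c.1 with ⟨h4, h5, h6⟩ | h4
        · exact ⟨h4, by rw [← hc]; omega⟩
        · exfalso; omega

/-- The real coordinate in direction `p`. -/
noncomputable def rl (p : ZMod 4) (z : ℂ) : ℝ := z.re * (dir p).1 + z.im * (dir p).2

lemma rl_pt (p : ZMod 4) (δ : ℝ) (v : ℤ × ℤ) : rl p (pt δ v) = δ * lq p v := by
  simp only [rl, pt, lq]; push_cast; ring

lemma rl_sub (p : ZMod 4) (x y : ℂ) : rl p (x - y) = rl p x - rl p y := by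
  simp only [rl, Complex.sub_re, Complex.sub_im]; ring

lemma rl_add (p : ZMod 4) (x y : ℂ) : rl p (x + y) = rl p x + rl p y := by
  simp only [rl, Complex.add_re, Complex.add_im]; ring

lemma rl_smul (p : ZMod 4) (t : ℝ) (x : ℂ) : rl p (t • x) = t * rl p x := by
  simp only [rl, Complex.smul_re, Complex.smul_im, smul_eq_mul]; ring

lemma abs_rl_le (p : ZMod 4) (z : ℂ) : |rl p z| ≤ ‖z‖ := by
  have h1 := Complex.abs_re_le_norm z
  have h2 := Complex.abs_im_le_norm z
  rcases zmod4 p with rfl | rfl | rfl | rfl <;>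
    simp only [rl, dir_0, dir_1, dir_2, dir_3, Int.cast_one, Int.cast_zero, Int.cast_neg, mul_one,
      mul_zero, add_zero, zero_add, mul_neg, abs_neg] <;> assumption

lemma exists_rl (z : ℂ) : ∃ p : ZMod 4, ‖z‖ ≤ √2 * rl p z := by
  have h : ‖z‖ ≤ √2 * max |z.re| |z.im| := by
    have h1 : ‖z‖ = √(z.re ^ 2 + z.im ^ 2) := by
      rw [Complex.norm_def, Complex.normSq_apply]; congr 1; ring
    rw [h1]
    rw [Real.sqrt_le_left (by positivity)]
    rw [mul_pow, Real.sq_sqrt (by norm_num)]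
    have h2 : z.re ^ 2 ≤ (max |z.re| |z.im|) ^ 2 := by
      rw [← sq_abs z.re]; exact pow_le_pow_left₀ (abs_nonneg _) (le_max_left _ _) 2
    have h3 : z.im ^ 2 ≤ (max |z.re| |z.im|) ^ 2 := by
      rw [← sq_abs z.im]; exact pow_le_pow_left₀ (abs_nonneg _) (le_max_right _ _) 2
    linarith
  rcases le_total |z.im| |z.re| with h4 | h4
  · rw [max_eq_left h4] at h
    rcases le_total 0 z.re with h5 | h5
    · refine ⟨0, ?_⟩
      rw [abs_of_nonneg h5] at h
      simpa [rl, dir_0] using h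
    · refine ⟨2, ?_⟩
      rw [abs_of_nonpos h5] at h
      simpa [rl, dir_2] using h
  · rw [max_eq_right h4] at h
    rcases le_total 0 z.im with h5 | h5
    · refine ⟨1, ?_⟩
      rw [abs_of_nonneg h5] at h
      simpa [rl, dir_1] using h
    · refine ⟨3, ?_⟩
      rw [abs_of_nonpos h5] at h
      simpa [rl, dir_3] using h

/-- A point of an edge of a lattice line. -/
lemma rl_seg {p : ZMod 4} {δ : ℝ} {v : ℤ × ℤ} {y : ℂ}
    (hy : y ∈ segment ℝ (pt δ v) (pt δ (v + dir (p + 1)))) :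
    rl p y = δ * lq p v ∧ ∃ θ : ℝ, 0 ≤ θ ∧ θ ≤ 1 ∧ rl (p + 1) y = δ * (lq (p + 1) v + θ) := by
  rw [segment_eq_image'] at hy
  obtain ⟨θ, ⟨h0, h1⟩, rfl⟩ := hy
  constructor
  · simp only [rl_add, rl_smul, rl_sub, rl_pt, lq_add, lq_dir_one]
    push_cast; ring
  · refine ⟨θ, h0, h1, ?_⟩
    simp only [rl_add, rl_smul, rl_sub, rl_pt, lq_add, lq_dir]
    push_cast; ring

lemma lq_inj {p : ZMod 4} {u v : ℤ × ℤ} (h1 : lq p u = lq p v) (h2 : lq (p + 1) u = lq (p + 1) v) :
    u = v := by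
  have f0 : (0 + 1 : ZMod 4) = 1 := by decide
  have f1 : (1 + 1 : ZMod 4) = 2 := by decide
  have f2 : (2 + 1 : ZMod 4) = 3 := by decide
  have f3 : (3 + 1 : ZMod 4) = 0 := by decide
  rcases zmod4 p with rfl | rfl | rfl | rfl <;>
    simp [lq, f0, f1, f2, f3, dir_0, dir_1, dir_2, dir_3] at h1 h2 <;>
    exact Prod.ext (by omega) (by omega)

/-- **Two boundary points on lattice edges.** -/
lemma sep {D : Set ℂ} {p : ZMod 4} {δ : ℝ} (hδ : 0 < δ) {u v : ℤ × ℤ} (huv : u ≠ v) {y z : ℂ}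
    (hy : y ∈ segment ℝ (pt δ u) (pt δ (u + dir (p + 1))))
    (hz : z ∈ segment ℝ (pt δ v) (pt δ (v + dir (p + 1)))) (hu : pt δ u ∈ D) (hv : pt δ v ∈ D)
    (hu' : pt δ (u + dir (p + 1)) ∉ D) (hv' : pt δ (v + dir (p + 1)) ∉ D) :
    δ ≤ ‖y - z‖ := by
  obtain ⟨y1, θ, t0, t1, y2⟩ := rl_seg hy
  obtain ⟨z1, τ, s0, s1, z2⟩ := rl_seg hz
  have h1 := abs_rl_le p (y - z)
  have h2 := abs_rl_le (p + 1) (y - z)
  rw [rl_sub, y1, z1] at h1
  rw [rl_sub, y2, z2] at h2
  by_cases h : lq p u = lq p v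
  · have h3 : lq (p + 1) u ≠ lq (p + 1) v := fun h' => huv (lq_inj h h')
    have key : ∀ {u v : ℤ × ℤ}, lq p u = lq p v → lq (p + 1) u < lq (p + 1) v → pt δ v ∈ D →
        pt δ (u + dir (p + 1)) ∉ D → lq (p + 1) u + 2 ≤ lq (p + 1) v := by
      intro u v h h3 hv hu'
      by_contra h4
      have h5 : lq (p + 1) v = lq (p + 1) u + 1 := by omega
      apply hu'
      have : u + dir (p + 1) = v := by
        apply lq_inj (p := p)
        · rw [lq_add, lq_dir_one, add_zero, h]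
        · rw [lq_add, lq_dir, h5]
      rw [this]; exact hv
    rcases lt_or_gt_of_ne h3 with h4 | h4
    · have h5 : (lq (p + 1) u : ℝ) + 2 ≤ lq (p + 1) v := by exact_mod_cast key h h4 hv hu'
      have h6 := (abs_le.1 h2).1
      nlinarith
    · have h5 : (lq (p + 1) v : ℝ) + 2 ≤ lq (p + 1) u := by exact_mod_cast key h.symm h4 hu hv'
      have h6 := (abs_le.1 h2).2
      nlinarith
  · rcases lt_or_gt_of_ne h with h4 | h4
    · have h5 : (lq p u : ℝ) + 1 ≤ lq p v := by exact_mod_cast h4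
      have h6 := (abs_le.1 h1).1
      nlinarith
    · have h5 : (lq p v : ℝ) + 1 ≤ lq p u := by exact_mod_cast h4
      have h6 := (abs_le.1 h1).2
      nlinarith

end Pool.Agent.H4.Lit
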