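import Pool.Agent.H42.MJ.Runs

set_option autoImplicit false
open Set Topology Filter
open Pool.Agent.H81.Q1 Pool.Agent.H42.MJ

/-! # LIT: the component of the vertices of `δℤ²` in `D` (the edges may leave `D`)

`LitD D δ X`: the edges of the discrete domain `X` are all nearest-neighbour edges between its
vertices, and if a neighbour of a vertex `v` of `X` is not a vertex of `X`, then `v` is in `D` and the
neighbour is not. -/

namespace Pool.Agent.H4.Lit

structure LitD (D : Set ℂ) (δ : ℝ) (X : DDomain) : Prop where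
  sub : ∀ v ∈ X.V, ∀ q : ZMod 4, v + dir q ∉ X.V → pt δ v ∈ D
  out : ∀ v ∈ X.V, ∀ q : ZMod 4, v + dir q ∉ X.V → pt δ (v + dir q) ∉ D
  edge : ∀ v ∈ X.V, ∀ q : ZMod 4, s(v, v + dir q) ∈ X.E ↔ v + dir q ∈ X.V

variable {D : Set ℂ} {δ : ℝ} {X : DDomain}

/-- A closed corner: its edge is not an edge of the domain. -/
def clsd (X : DDomain) (c : Corner) : Prop := c.edge ∉ X.E

lemma LitD.clsd_iff (h : LitD D δ X) {c : Corner} (hc : c.1 ∈ X.V) :
    clsd X c ↔ c.1 + dir c.2 ∉ X.V := by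
  unfold clsd Corner.edge
  rw [h.edge c.1 hc c.2]

lemma LitD.mem (h : LitD D δ X) {c : Corner} (hc : c.1 ∈ X.V) (hcl : clsd X c) :
    pt δ c.1 ∈ D := h.sub _ hc _ ((h.clsd_iff hc).1 hcl)

lemma LitD.not_mem (h : LitD D δ X) {c : Corner} (hc : c.1 ∈ X.V) (hcl : clsd X c) :
    pt δ (c.1 + dir c.2) ∉ D := h.out _ hc _ ((h.clsd_iff hc).1 hcl)

end Pool.Agent.H4.Lit
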