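import Pool.Agent.H4.Lit.Near
import Pool.Agent.H11.Lit.Exist
import Pool.Agent.H11.Lit.Var
import Pool.Agent.H11.M7.Ori2

set_option autoImplicit false
open Set Topology Filter MeasureTheory
open scoped Real ENNReal
open Pool.Agent.H81.Q1

/-! # The largest component of the vertices in `D` (holes filled) is an approximating sequence -/

namespace Pool.Agent.H4.Lit

open Pool.Agent.H14.Jordan Pool.Agent.H11.M7 Pool.Agent.H11.Lit
open Pool.Agent.H82.Q1 (IsChart posArc negArc)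
open Pool.Agent.H42.MJ (jTop)

variable {D : Set ℂ} {a b : ℂ} {φ : ℂ → ℂ}

/-- `X` is the largest component of the vertices in `D`, with its holes filled. -/
def IsBig (D : Set ℂ) (δ : ℝ) (X : DDomain) : Prop :=
  ∃ V : Set (ℤ × ℤ), IsVC D δ V ∧ (∀ V', IsVC D δ V' → V'.ncard ≤ V.ncard) ∧
    X.V = filled V ∧ X.E = edges X.V

lemma IsBig.lit {δ : ℝ} {X : DDomain} (h : IsBig D δ X) : LitD D δ X := by
  obtain ⟨V, hV, -, h1, h2⟩ := h
  refine ⟨?_, ?_, ?_⟩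
  · intro v hv q hq
    rw [h1] at hv hq
    exact (hV.closed hv hq).1
  · intro v hv q hq
    rw [h1] at hv hq
    exact (hV.closed hv hq).2
  · intro v hv q
    rw [h2]
    exact edges_iff q hv

theorem approx_big (hD : IsJordanDomain D) (h : IsChart D a b φ) (hH : μH[1] (frontier D) < ⊤)
    (δ : ℕ → ℝ) (X : ℕ → DDomain) (pos : ∀ n, 0 < δ n) (lim : Tendsto δ atTop (𝓝 0))
    (hX : ∀ n, IsBig D (δ n) (X n))
    (limα : Tendsto (fun n => pt (δ n) (X n).α.1) atTop (𝓝 a))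
    (limβ : Tendsto (fun n => pt (δ n) (X n).β.1) atTop (𝓝 b)) :
    ∃ A : Approx D a b (posArc φ b) (negArc φ b), A.δ = δ ∧ A.X = X := by
  obtain ⟨L, hLc, hL, hL2⟩ := disk_lift (FF_cont h) (FF_inj h) (FF_diff h)
  have hz0 : FF φ b 0 ∈ D := by
    rw [← FF_image h]
    exact ⟨0, Metric.mem_ball_self one_pos, rfl⟩
  have hπ := Real.pi_pos
  have hJ := rho_jd h
  have hT := jTop hD
  have hsmall : ∀ ε > 0, ∀ᶠ n in atTop, δ n < ε := fun ε hε => lim.eventually (gt_mem_nhds hε)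
  have hα : ∀ ε > 0, ∀ᶠ n in atTop, ‖pt (δ n) (X n).α.1 - rho φ b 0‖ < ε := fun ε hε => by
    rw [rho_zero h]
    filter_upwards [Metric.tendsto_nhds.1 limα ε hε] with n hn
    rwa [dist_eq_norm] at hn
  have hβ : ∀ ε > 0, ∀ᶠ n in atTop, ‖pt (δ n) (X n).β.1 - rho φ b π‖ < ε := fun ε hε => by
    rw [rho_pi]
    filter_upwards [Metric.tendsto_nhds.1 limβ ε hε] with n hn
    rwa [dist_eq_norm] at hn
  obtain ⟨r, hr, hbulk⟩ := bulk_of_largest_length hD.1 hT.conn hT.bdd hH hz0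
  have hloc : ∀ ε > 0, ∀ᶠ n in atTop,
      (∀ c ∈ (X n).wired, Metric.infDist (pt (δ n) c.1) (posArc φ b) < ε) ∧
      (∀ c ∈ (X n).dual, Metric.infDist (pt (δ n) c.1) (negArc φ b) < ε) := by
    intro ε hε
    obtain ⟨ε', hε', h1⟩ := local_lit hJ
      (fun s t _ _ => (eVariationOn_lt_top_of_frontier hJ hH s t).ne) hz0 hLc hL hL2
      (sa := 0) (sb := π) hπ (by linarith) hr hε
    rw [rho_pos, rho_neg] at h1
    filter_upwards [hsmall ε' hε', hsmall r hr, hα ε' hε', hβ ε' hε'] with n h2 h3 h4 h5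
    refine h1 (δ n) (pos n) h2 (X n) (hX n).lit ?_ h4 h5
    intro u hu
    obtain ⟨V, hV, hmax, hXV, -⟩ := hX n
    rw [hXV]
    exact subset_filled (hbulk (δ n) (pos n) h3 V hV hmax u hu)
  refine ⟨⟨δ, X, pos, lim, ?_, ?_, limα, limβ, ?_, ?_⟩, rfl, rfl⟩
  · intro K hK hKD
    obtain ⟨r1, hr1, h1⟩ := fill_of_largest hD.1 hT.conn hT.bdd hH hK hKD
    filter_upwards [hsmall r1 hr1] with n hn
    obtain ⟨V, hV, hmax, hXV, hXE⟩ := hX n
    have h2 : ∀ v, pt (δ n) v ∈ K → v ∈ (X n).V := fun v hv => by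
      rw [hXV]
      exact subset_filled (h1 (δ n) (pos n) hn V hV hmax v hv)
    refine ⟨h2, ?_⟩
    intro e he
    rw [hXE]
    exact ⟨he.1, fun v hv => h2 v (he.2 v hv)⟩
  · intro ε hε
    obtain ⟨r1, hr1, h1⟩ := filled_near hT hε
    filter_upwards [hsmall r1 hr1] with n hn v hv
    obtain ⟨V, hV, -, hXV, -⟩ := hX n
    rw [hXV] at hv
    exact h1 (δ n) (pos n) hn V hV.sub v hv
  · intro ε hε
    exact (hloc ε hε).mono fun n hn => hn.1
  · intro ε hε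
    exact (hloc ε hε).mono fun n hn => hn.2

theorem exists_big (h : IsJordanDomain D) (hH : μH[1] (frontier D) < ⊤) {a b : ℂ}
    (ha : a ∈ frontier D) (hb : b ∈ frontier D) (hab : a ≠ b) {ε : ℝ} (hε : 0 < ε) :
    ∃ δ₀ > 0, ∀ δ, 0 < δ → δ < δ₀ → ∃ X : DDomain, IsBig D δ X ∧
      dist (pt δ X.α.1) a < ε ∧ dist (pt δ X.β.1) b < ε := by
  obtain ⟨δ₀, h0, h1⟩ := exists_filled h hH ha hb hab hε
  refine ⟨δ₀, h0, fun δ hδ hδ' => ?_⟩
  obtain ⟨X, V, h2, h3, h4, h5, -, -, h6, h7⟩ := h1 δ hδ hδ'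
  exact ⟨X, ⟨V, h2, h3, h4, h5⟩, h6, h7⟩

end Pool.Agent.H4.Lit
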