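import Pool.Agent.H4.Lit.Cross

set_option autoImplicit false
open Set Topology Filter
open scoped Real
open Pool.Agent.H81.Q1 Pool.Agent.H42.MJ

/-! # Key estimate: no arc is passed twice in the same direction -/

namespace Pool.Agent.H4.Lit

/-- Separated points on a curve of finite variation. -/
theorem var_points {ρ : ℝ → ℂ} {s t M d : ℝ} (hM0 : 0 ≤ M) (hd0 : 0 ≤ d)
    (hM : eVariationOn ρ (Icc s t) ≤ ENNReal.ofReal M) (F : Finset ℝ) (hF : ∀ x ∈ F, x ∈ Icc s t)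
    (hd : ∀ x ∈ F, ∀ y ∈ F, x ≠ y → d ≤ ‖ρ x - ρ y‖) : ((F.card : ℝ) - 1) * d ≤ M := by
  rcases Nat.eq_zero_or_pos F.card with h0 | h0
  · rw [h0]; push_cast; nlinarith
  obtain ⟨n, hn⟩ : ∃ n, F.card = n + 1 := ⟨F.card - 1, by omega⟩
  set e := F.orderEmbOfFin hn with he
  set u : ℕ → ℝ := fun i => e ⟨min i n, by omega⟩ with hu
  have hmono : Monotone u := by
    intro i j hij
    simp only [hu]
    apply e.monotone
    rw [Fin.mk_le_mk]
    exact min_le_min_right n hij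
  have hmem : ∀ i, u i ∈ F := fun i => Finset.orderEmbOfFin_mem F hn _
  have h1 := eVariationOn.sum_le (f := ρ) (s := Icc s t) (n := n) hmono (fun i => hF _ (hmem i))
  have h2 : (n : ENNReal) * ENNReal.ofReal d ≤
      ∑ i ∈ Finset.range n, edist (ρ (u (i + 1))) (ρ (u i)) := by
    have h3 : ∑ i ∈ Finset.range n, ENNReal.ofReal d ≤
        ∑ i ∈ Finset.range n, edist (ρ (u (i + 1))) (ρ (u i)) := by
      apply Finset.sum_le_sum
      intro i hi
      rw [Finset.mem_range] at hi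
      rw [edist_dist, dist_eq_norm]
      apply ENNReal.ofReal_le_ofReal
      apply hd _ (hmem _) _ (hmem _)
      simp only [hu]
      intro h
      have h4 := e.injective h
      rw [Fin.mk.injEq] at h4
      omega
    simpa using h3
  have h5 : ENNReal.ofReal ((n : ℝ) * d) ≤ ENNReal.ofReal M := by
    rw [ENNReal.ofReal_mul (by positivity), ENNReal.ofReal_natCast]
    exact h2.trans (h1.trans hM)
  have h6 := (ENNReal.ofReal_le_ofReal_iff hM0).1 h5
  rw [hn]; push_cast; linarith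

/-- The boundary parameter of the contour. -/
structure Track (δ ω : ℝ) (X : DDomain) (a : Corner) (ρ : ℝ → ℂ) (T : ℕ → ℝ) : Prop where
  hit : ∀ k, clsd X ((next X.E)^[k] a) → ρ (T k) ∈ segment ℝ (pt δ ((next X.E)^[k] a).1)
    (pt δ (((next X.E)^[k] a).1 + dir ((next X.E)^[k] a).2))
  near : ∀ k, ‖pt δ ((next X.E)^[k] a).1 - ρ (T k)‖ ≤ 5 * δ
  step : ∀ k, |T (k + 1) - T k| < ω

lemma next_mem_lit {E : Set (Sym2 (ℤ × ℤ))} {V : Set (ℤ × ℤ)} (hE : E ⊆ edges V) {c : Corner}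
    (hc : c.1 ∈ V) : (next E c).1 ∈ V := by
  unfold next
  split_ifs with h
  · exact (hE h).2 _ (by simp [Corner.edge])
  · exact hc

lemma iter_mem_lit {E : Set (Sym2 (ℤ × ℤ))} {V : Set (ℤ × ℤ)} (hE : E ⊆ edges V) {c : Corner}
    (hc : c.1 ∈ V) (k : ℕ) : ((next E)^[k] c).1 ∈ V := by
  induction k with
  | zero => exact hc
  | succ k ih => rw [Function.iterate_succ_apply']; exact next_mem_lit hE ih

lemma fp_face (p q : ZMod 4) (v : ℤ × ℤ) :
    fp p (Corner.face (v, q)) ≤ 2 * lq p v + 1 ∧ 2 * lq p v - 1 ≤ fp p (Corner.face (v, q)) := by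
  obtain ⟨a, b⟩ := v
  have d1 : (2 : ZMod 4) ≠ 0 := by decide
  have d2 : (2 : ZMod 4) ≠ 1 := by decide
  have d3 : (3 : ZMod 4) ≠ 0 := by decide
  have d4 : (3 : ZMod 4) ≠ 1 := by decide
  have d5 : (3 : ZMod 4) ≠ 2 := by decide
  have d6 : (1 : ZMod 4) ≠ 0 := by decide
  rcases zmod4 p with rfl | rfl | rfl | rfl <;> rcases zmod4 q with rfl | rfl | rfl | rfl <;>
    constructor <;>
    simp [fp, lq, Corner.face, dir_0, dir_1, dir_2, dir_3, d1, d2, d3, d4, d5, d6] <;> omega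

/-- The part of a strand strictly inside the arc. -/
lemma strand {T : ℕ → ℝ} {s t ω : ℝ} (hω : ω < t - s) (hstep : ∀ k, |T (k + 1) - T k| < ω)
    {i j : ℕ} (hij : i ≤ j) (hi : t ≤ T i) (hj : T j ≤ s) :
    ∃ A B, i ≤ A ∧ A ≤ B ∧ B ≤ j ∧ (∀ k, A ≤ k → k ≤ B → T k ∈ Ioo s t) ∧ t - ω < T A ∧
      T B < s + ω := by
  classical
  have hω0 : 0 < ω := (abs_nonneg _).trans_lt (hstep 0)
  have hst : s < t := by linarith
  -- the last time above `t`
  set S := (Finset.Icc i j).filter (fun k => t ≤ T k) with hS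
  have hne : S.Nonempty := ⟨i, by simp [hS, hij, hi]⟩
  set i' := S.max' hne with hi'
  have h1 : i' ∈ S := S.max'_mem hne
  simp only [hS, Finset.mem_filter, Finset.mem_Icc] at h1
  obtain ⟨⟨h2, h3⟩, h4⟩ := h1
  have h5 : i' < j := by
    rcases h3.lt_or_eq with h | h
    · exact h
    · rw [h] at h4; linarith
  have h6 : ∀ k, i' < k → k ≤ j → T k < t := by
    intro k hk hkj
    by_contra h
    push Not at h
    have : k ≤ i' := S.le_max' k (by simp [hS]; exact ⟨⟨by omega, hkj⟩, h⟩)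
    omega
  -- the first time below `s`
  set S' := (Finset.Icc (i' + 1) j).filter (fun k => T k ≤ s) with hS'
  have hne' : S'.Nonempty := ⟨j, by simp [hS']; exact ⟨h5, hj⟩⟩
  set j' := S'.min' hne' with hj'
  have g1 : j' ∈ S' := S'.min'_mem hne'
  simp only [hS', Finset.mem_filter, Finset.mem_Icc] at g1
  obtain ⟨⟨g2, g3⟩, g4⟩ := g1
  have g6 : ∀ k, i' < k → k < j' → s < T k := by
    intro k hk hkj
    by_contra h
    push Not at h
    have : j' ≤ k := S'.min'_le k (by simp [hS']; exact ⟨⟨hk, by omega⟩, h⟩)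
    omega
  have g7 : t - ω < T (i' + 1) := by
    have := abs_lt.1 (hstep i'); linarith
  have g8 : i' + 1 ≠ j' := by
    intro h; rw [h] at g7; linarith
  refine ⟨i' + 1, j' - 1, by omega, by omega, by omega, ?_, g7, ?_⟩
  · intro k hk hk'
    exact ⟨g6 k (by omega) (by omega), h6 k (by omega) (by omega)⟩
  · have h7 := abs_lt.1 (hstep (j' - 1))
    rw [show j' - 1 + 1 = j' by omega] at h7
    linarith

/-- **Key estimate.** -/
theorem key_estimate {D : Set ℂ} {ρ : ℝ → ℂ} (hρ : Continuous ρ)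
    (hper : ∀ (x : ℝ) (n : ℤ), ρ (x + n * (2 * π)) = ρ x)
    {s t M : ℝ} (hst : s < t) (hM0 : 0 ≤ M) (hM : eVariationOn ρ (Icc s t) ≤ ENNReal.ofReal M)
    (hch : M < √2 * ‖ρ s - ρ t‖) :
    ∃ ε > 0, ∀ δ, 0 < δ → δ < ε → ∀ ω < ε, ∀ X : DDomain, LitD D δ X → ∀ a : Corner, a.1 ∈ X.V →
      ∀ T : ℕ → ℝ, Track δ ω X a ρ T → ∀ N : ℕ,
      (∀ k l, k < l → l < k + N → (next X.E)^[k] a ≠ (next X.E)^[l] a) →
      ∀ (i1 j1 i2 j2 : ℕ) (m1 m2 : ℤ), i1 ≤ j1 → j1 ≤ i2 → i2 ≤ j2 → j2 ≤ i1 + N →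
      t + m1 * (2 * π) ≤ T i1 → T j1 ≤ s + m1 * (2 * π) → t + m2 * (2 * π) ≤ T i2 →
      T j2 ≤ s + m2 * (2 * π) → False := by
  obtain ⟨p, hp⟩ := exists_rl (ρ s - ρ t)
  rw [rl_sub] at hp
  set R := rl p (ρ s) - rl p (ρ t) with hR
  set g := 2 * R - M with hg
  have hg0 : 0 < g := by
    have h1 : √2 * ‖ρ s - ρ t‖ ≤ √2 * (√2 * R) := mul_le_mul_of_nonneg_left hp (by positivity)
    rw [← mul_assoc, Real.mul_self_sqrt (by norm_num)] at h1
    linarith
  obtain ⟨η1, hη1, hη1'⟩ := Metric.continuous_iff.1 hρ t (g / 16) (by positivity)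
  obtain ⟨η2, hη2, hη2'⟩ := Metric.continuous_iff.1 hρ s (g / 16) (by positivity)
  refine ⟨min (min η1 η2) (min (g / 64) (t - s)), by
    have : 0 < t - s := by linarith
    positivity, ?_⟩
  intro δ hδ hδε ω hω X hL a haV T hT N hN i1 j1 i2 j2 m1 m2 h1 h2 h3 h4 e1 e2 e3 e4
  simp only [lt_min_iff] at hδε hω
  obtain ⟨⟨-, -⟩, hδg, -⟩ := hδε
  obtain ⟨⟨hω1, hω2⟩, -, hω4⟩ := hω
  set c : ℕ → Corner := fun k => (next X.E)^[k] a with hc
  have cV : ∀ k, (c k).1 ∈ X.V := fun k => iter_mem_lit X.subE haV k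
  -- crossing times of a strand
  have strandX : ∀ (i j : ℕ) (m : ℤ), i ≤ j → t + m * (2 * π) ≤ T i → T j ≤ s + m * (2 * π) →
      ∀ y : ℤ, rl p (ρ t) + g / 16 + 6 * δ ≤ δ * y → δ * y ≤ rl p (ρ s) - g / 16 - 6 * δ →
      ∃ k, i ≤ k ∧ k < j ∧ clsd X (c k) ∧ (c k).2 = p + 1 ∧ lq p (c k).1 = y ∧
        T k - m * (2 * π) ∈ Icc s t := by
    intro i j m hij hi hj y hy1 hy2
    obtain ⟨A, B, k1, k2, k3, k4, k5, k6⟩ := strand (T := T) (s := s + m * (2 * π))
      (t := t + m * (2 * π)) (ω := ω) (by linarith) hT.step hij hi hj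
    have hA : dist (ρ (T A)) (ρ t) < g / 16 := by
      have h7 := k4 A le_rfl k2
      have h8 : ρ (T A) = ρ (T A - m * (2 * π)) := by
        have := hper (T A - m * (2 * π)) m
        rw [sub_add_cancel] at this
        exact this
      rw [h8]
      apply hη1'
      rw [Real.dist_eq, abs_lt]
      constructor <;> linarith [h7.1, h7.2]
    have hB : dist (ρ (T B)) (ρ s) < g / 16 := by
      have h7 := k4 B k2 le_rfl
      have h8 : ρ (T B) = ρ (T B - m * (2 * π)) := by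
        have := hper (T B - m * (2 * π)) m
        rw [sub_add_cancel] at this
        exact this
      rw [h8]
      apply hη2'
      rw [Real.dist_eq, abs_lt]
      constructor <;> linarith [h7.1, h7.2]
    rw [dist_eq_norm] at hA hB
    have hA1 := (abs_rl_le p _).trans_lt hA
    have hB1 := (abs_rl_le p _).trans_lt hB
    have hA2 := (abs_rl_le p _).trans (hT.near A)
    have hB2 := (abs_rl_le p _).trans (hT.near B)
    rw [rl_sub, abs_lt] at hA1 hB1
    rw [rl_sub, abs_le, rl_pt] at hA2 hB2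
    have fA := (fp_face p (c A).2 (c A).1).1
    have fB := (fp_face p (c B).2 (c B).1).2
    have fA' : (fp p (c A).face : ℝ) ≤ 2 * lq p (c A).1 + 1 := by exact_mod_cast fA
    have fB' : (2 : ℝ) * lq p (c B).1 - 1 ≤ fp p (c B).face := by exact_mod_cast fB
    have gA : fp p (c A).face ≤ 2 * y := by
      by_contra h
      push Not at h
      have h9 : (2 : ℝ) * y < fp p (c A).face := by exact_mod_cast h
      have h10 : (c A).1 = ((next X.E)^[A] a).1 := rfl
      rw [← h10] at hA2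
      nlinarith [hA2.2, hA1.2]
    have gB : 2 * y < fp p (c B).face := by
      by_contra h
      push Not at h
      have h9 : (fp p (c B).face : ℝ) ≤ 2 * y := by exact_mod_cast h
      have h10 : (c B).1 = ((next X.E)^[B] a).1 := rfl
      rw [← h10] at hB2
      nlinarith [hB2.1, hB1.1]
    obtain ⟨k, r1, r2, r3, r4, r5⟩ := crossing (E := X.E) (p := p) (a := a) (m := y) k2 gA gB
    refine ⟨k, by omega, by omega, r3, r4, r5, ?_⟩
    have h7 := k4 k r1 r2.le
    constructor <;> linarith [h7.1, h7.2]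
  -- the lattice lines
  set lo : ℤ := ⌈(rl p (ρ t) + g / 16) / δ + 6⌉ with hlo
  set hi : ℤ := ⌊(rl p (ρ s) - g / 16) / δ - 6⌋ with hhi
  set L := Finset.Icc lo hi with hLd
  have hy1 : ∀ y ∈ L, rl p (ρ t) + g / 16 + 6 * δ ≤ δ * y := by
    intro y hy
    have h7 := Int.ceil_le.1 (Finset.mem_Icc.1 hy).1
    have h8 : ((rl p (ρ t) + g / 16) / δ + 6) * δ ≤ y * δ := mul_le_mul_of_nonneg_right h7 hδ.le
    rw [add_mul, div_mul_cancel₀ _ hδ.ne'] at h8
    linarith
  have hy2 : ∀ y ∈ L, δ * y ≤ rl p (ρ s) - g / 16 - 6 * δ := by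
    intro y hy
    have h7 := Int.le_floor.1 (Finset.mem_Icc.1 hy).2
    have h8 : (y : ℝ) * δ ≤ ((rl p (ρ s) - g / 16) / δ - 6) * δ :=
      mul_le_mul_of_nonneg_right h7 hδ.le
    rw [sub_mul, div_mul_cancel₀ _ hδ.ne'] at h8
    linarith
  have ex1 := fun (y : ℤ) (hy : y ∈ L) => strandX i1 j1 m1 h1 e1 e2 y (hy1 y hy) (hy2 y hy)
  have ex2 := fun (y : ℤ) (hy : y ∈ L) => strandX i2 j2 m2 h3 e3 e4 y (hy1 y hy) (hy2 y hy)
  choose! k1 a1 a2 a3 a4 a5 a6 using ex1
  choose! k2 b1 b2 b3 b4 b5 b6 using ex2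
  set K : ℤ × Bool → ℕ := fun z => if z.2 then k1 z.1 else k2 z.1 with hK
  set x : ℤ × Bool → ℝ := fun z => if z.2 then T (k1 z.1) - m1 * (2 * π)
    else T (k2 z.1) - m2 * (2 * π) with hx
  have hρx : ∀ z, ρ (x z) = ρ (T (K z)) := by
    rintro ⟨y, b⟩
    cases b
    · have := hper (T (k2 y) - m2 * (2 * π)) m2
      rw [sub_add_cancel] at this
      simp only [hx, hK]
      simpa using this.symm
    · have := hper (T (k1 y) - m1 * (2 * π)) m1
      rw [sub_add_cancel] at this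
      simp only [hx, hK]
      simpa using this.symm
  set P := L ×ˢ (Finset.univ : Finset Bool) with hP
  have hcl : ∀ z ∈ P, clsd X (c (K z)) ∧ (c (K z)).2 = p + 1 ∧ lq p (c (K z)).1 = z.1 ∧
      x z ∈ Icc s t := by
    rintro ⟨y, b⟩ hz
    have hy : y ∈ L := (Finset.mem_product.1 hz).1
    cases b
    · exact ⟨b3 y hy, b4 y hy, b5 y hy, b6 y hy⟩
    · exact ⟨a3 y hy, a4 y hy, a5 y hy, a6 y hy⟩
  have hne : ∀ z ∈ P, ∀ w ∈ P, z ≠ w → (c (K z)).1 ≠ (c (K w)).1 := by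
    rintro ⟨y, b⟩ hz ⟨y', b'⟩ hw hzw h
    have q1 := (hcl _ hz).2.2.1
    have q2 := (hcl _ hw).2.2.1
    rw [h, q2] at q1
    simp only at q1
    subst q1
    have hy : y' ∈ L := (Finset.mem_product.1 hz).1
    have key : c (k1 y') ≠ c (k2 y') := by
      apply hN
      · have := a2 y' hy; have := b1 y' hy; omega
      · have := a1 y' hy; have := b2 y' hy; omega
    have hbb : b ≠ b' := fun h => hzw (by rw [h])
    cases b <;> cases b'
    · exact hbb rfl
    · refine key (Prod.ext ?_ ?_)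
      · exact h.symm
      · rw [a4 y' hy, b4 y' hy]
    · refine key (Prod.ext ?_ ?_)
      · exact h
      · rw [a4 y' hy, b4 y' hy]
    · exact hbb rfl
  have hsep : ∀ z ∈ P, ∀ w ∈ P, z ≠ w → δ ≤ ‖ρ (x z) - ρ (x w)‖ := by
    intro z hz w hw hzw
    obtain ⟨c1, c2, -, -⟩ := hcl z hz
    obtain ⟨d1, d2, -, -⟩ := hcl w hw
    rw [hρx, hρx]
    have s1 := hT.hit _ c1
    have s2 := hT.hit _ d1
    have t1 := hL.not_mem (cV _) c1
    have t2 := hL.not_mem (cV _) d1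
    rw [c2] at t1
    rw [d2] at t2
    change ρ (T (K z)) ∈ segment ℝ (pt δ (c (K z)).1) (pt δ ((c (K z)).1 + dir (c (K z)).2)) at s1
    change ρ (T (K w)) ∈ segment ℝ (pt δ (c (K w)).1) (pt δ ((c (K w)).1 + dir (c (K w)).2)) at s2
    rw [c2] at s1
    rw [d2] at s2
    exact sep hδ (hne z hz w hw hzw) s1 s2 (hL.mem (cV _) c1) (hL.mem (cV _) d1) t1 t2
  have hinj : Set.InjOn x P := by
    intro z hz w hw hzw
    by_contra h
    have h7 := hsep z hz w hw h
    rw [hzw, sub_self, norm_zero] at h7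
    linarith
  have hfin := var_points (d := δ) hM0 hδ.le hM (P.image x) (by
    intro y hy
    obtain ⟨z, hz, rfl⟩ := Finset.mem_image.1 hy
    exact (hcl z hz).2.2.2) (by
    intro y hy y' hy' hyy
    obtain ⟨z, hz, rfl⟩ := Finset.mem_image.1 hy
    obtain ⟨w, hw, rfl⟩ := Finset.mem_image.1 hy'
    exact hsep z hz w hw fun h => hyy (by rw [h]))
  rw [Finset.card_image_of_injOn hinj, hP, Finset.card_product, Finset.card_univ,
    Fintype.card_bool] at hfin
  have hcard : (hi : ℝ) + 1 - lo ≤ L.card := by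
    rw [hLd, Int.card_Icc]
    have : hi + 1 - lo ≤ ((hi + 1 - lo).toNat : ℤ) := Int.self_le_toNat _
    exact_mod_cast this
  have f1 : (lo : ℝ) < (rl p (ρ t) + g / 16) / δ + 6 + 1 := Int.ceil_lt_add_one _
  have f2 : (rl p (ρ s) - g / 16) / δ - 6 - 1 < hi := Int.sub_one_lt_floor _
  have f3 : (rl p (ρ s) - g / 16) / δ - (rl p (ρ t) + g / 16) / δ - 13 ≤ L.card := by linarith
  have f4 : ((rl p (ρ s) - g / 16) / δ - (rl p (ρ t) + g / 16) / δ - 13) * δ ≤ L.card * δ :=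
    mul_le_mul_of_nonneg_right f3 hδ.le
  rw [sub_mul, sub_mul, div_mul_cancel₀ _ hδ.ne', div_mul_cancel₀ _ hδ.ne'] at f4
  push_cast at hfin
  nlinarith

end Pool.Agent.H4.Lit
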