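import Pool.Agent.H4.Lit.Back
import Pool.Agent.H42.Lit.Lift

set_option autoImplicit false
open Set Topology Filter
open scoped Real
open Pool.Agent.H81.Q1

/-! # The boundary parameter of the literal contour is almost decreasing -/

namespace Pool.Agent.H4.Lit

open Pool.Agent.H14.Jordan

variable {D : Set ℂ} {ρ : ℝ → ℂ}

lemma exists_small (e : ℕ → ℝ) (he : ∀ k, 0 < e k) (K : ℕ) : ∃ ε > 0, ∀ k ≤ K, ε ≤ e k := by
  induction K with
  | zero => exact ⟨e 0, he 0, fun k hk => by rw [Nat.le_zero.1 hk]⟩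
  | succ K ih =>
    obtain ⟨ε, hε, h⟩ := ih
    refine ⟨min ε (e (K + 1)), lt_min hε (he _), fun k hk => ?_⟩
    rcases Nat.lt_or_ge K k with h1 | h1
    · have : k = K + 1 := by omega
      rw [this]; exact min_le_right _ _
    · exact (min_le_left _ _).trans (h k h1)

/-- **No backtracking.** -/
theorem no_back (hJ : IsJD D ρ)
    (hvar : ∀ s t, s ≤ t → t ≤ s + 2 * π → eVariationOn ρ (Icc s t) ≠ ⊤) {ε : ℝ} (hε : 0 < ε)
    (hε2 : ε ≤ π) :
    ∃ ε' > 0, ∀ δ, 0 < δ → δ < ε' → ∀ ω < ε', ∀ X : DDomain, LitD D δ X → ∀ a : Corner,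
      a.1 ∈ X.V → ∀ T : ℕ → ℝ, Track δ ω X a ρ T → ∀ N : ℕ, 0 < N →
      (∀ k l, k < l → l < k + N → (next X.E)^[k] a ≠ (next X.E)^[l] a) →
      (∀ k, T (k + N) = T k - 2 * π) → ∀ i i', i ≤ i' → T i' < T i + ε := by
  have hpi := Real.two_pi_pos
  have hpi1 := Real.pi_pos
  have h1 : ∀ k : ℕ, ∃ e > 0, ∃ s t : ℝ, k * (ε / 4) ≤ s ∧ s < t ∧ t ≤ (k + 1) * (ε / 4) ∧
      ∀ δ, 0 < δ → δ < e → ∀ ω < e, ∀ X : DDomain, LitD D δ X → ∀ a : Corner, a.1 ∈ X.V →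
      ∀ T : ℕ → ℝ, Track δ ω X a ρ T → ∀ N : ℕ,
      (∀ k l, k < l → l < k + N → (next X.E)^[k] a ≠ (next X.E)^[l] a) →
      ∀ (i1 j1 i2 j2 : ℕ) (m1 m2 : ℤ), i1 ≤ j1 → j1 ≤ i2 → i2 ≤ j2 → j2 ≤ i1 + N →
      t + m1 * (2 * π) ≤ T i1 → T j1 ≤ s + m1 * (2 * π) → t + m2 * (2 * π) ≤ T i2 →
      T j2 ≤ s + m2 * (2 * π) → False := by
    intro k
    have hpq : (k : ℝ) * (ε / 4) < (k + 1) * (ε / 4) := by linarith
    have hne : ρ (k * (ε / 4)) ≠ ρ ((k + 1) * (ε / 4)) := by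
      intro h
      have h2 := hJ.loop.injOn (a := k * (ε / 4)) (b := (k + 1) * (ε / 4)) (by linarith)
        ⟨le_rfl, hpq.le⟩ ⟨hpq.le, le_rfl⟩ h
      linarith
    obtain ⟨s, t, M, g1, g2, g3, g4, g5, g6⟩ := good_arc hpq hne
      (hvar _ _ hpq.le (by linarith))
    obtain ⟨e, he, h⟩ := key_estimate (D := D) hJ.loop.cont hJ.loop.add_int g2 g4 g5 g6
    exact ⟨e, he, s, t, g1, g2, g3, h⟩
  choose e he s t hs hst ht hkey using h1
  set K := ⌈(2 * π) / (ε / 4)⌉₊ with hK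
  obtain ⟨ε1, hε1, hle⟩ := exists_small e he K
  refine ⟨min ε1 π, lt_min hε1 hpi1, ?_⟩
  intro δ hδ hδε ω hω X hL a haV T hT N hN hdist hper i i' hi
  by_contra hcon
  push Not at hcon
  have hω1 := lt_min_iff.1 hω
  have hδ1 := lt_min_iff.1 hδε
  obtain ⟨u, i1, j1, i2, j2, q1, q2, q3, q4, q5, q6, q7, q8⟩ :=
    backtrack hN hper hT.step hε (by linarith [hω1.2]) hi hcon
  obtain ⟨n, hn, -⟩ := existsUnique_add_zsmul_mem_Ico hpi u 0
  simp only [zsmul_eq_mul, zero_add] at hn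
  set w := u + n * (2 * π) with hw
  set k := ⌈w / (ε / 4)⌉₊ with hk
  have h4 : 0 < ε / 4 := by positivity
  have k1 : w ≤ k * (ε / 4) := by
    have := Nat.le_ceil (w / (ε / 4))
    rwa [div_le_iff₀ h4] at this
  have k2 : (k : ℝ) * (ε / 4) < w + ε / 4 := by
    have := Nat.ceil_lt_add_one (a := w / (ε / 4)) (div_nonneg hn.1 h4.le)
    have h5 := mul_lt_mul_of_pos_right this h4
    rw [add_mul, div_mul_cancel₀ _ h4.ne', ← hk] at h5
    linarith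
  have k3 : k ≤ K := Nat.ceil_mono (div_le_div_of_nonneg_right hn.2.le h4.le)
  have k4 := hle k k3
  have hk1 := hs k
  have hk2 := ht k
  refine hkey k δ hδ (by linarith [hδ1.1]) ω (by linarith [hω1.1]) X hL a haV T hT N hdist
    i1 j1 i2 j2 (-n) (-n - 1) q1 q2 q3 q4 ?_ ?_ ?_ ?_
  · push_cast; linarith
  · push_cast; linarith
  · push_cast; linarith
  · push_cast; linarith

end Pool.Agent.H4.Lit
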