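import Pool.Agent.H4.Lit.Mono

set_option autoImplicit false
open Set Topology Filter
open scoped Real
open Pool.Agent.H81.Q1

/-! # The literal wired and dual contours are close to the two arcs -/

namespace Pool.Agent.H4.Lit

open Pool.Agent.H14.Jordan Pool.Agent.H42.Lit
open Pool.Agent.H42.MJ (ctr off xb ex ex_spec rp_eq_add orbit_outer outer_iter exists_sq Sq zmod4
  off_0 off_1 off_2 off_3)

variable {D : Set ℂ} {ρ : ℝ → ℂ}

lemma xb_mem_segment {δ : ℝ} (hD : IsOpen D) {v : ℤ × ℤ} {q : ZMod 4} (hv : pt δ v ∈ D)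
    (h : ¬Pool.Agent.H42.MJ.op D δ v q) :
    xb D δ v q ∈ segment ℝ (pt δ v) (pt δ (v + dir q)) := by
  obtain ⟨h0, h1, -, -⟩ := ex_spec hD hv h
  rw [segment_eq_image']
  refine ⟨ex D δ v q, ⟨h0.le, h1⟩, ?_⟩
  simp only
  rw [← rp_eq_add]; rfl

lemma iterate_ne {f : Corner → Corner} {a : Corner} {k l : ℕ}
    (hN : 0 < Function.minimalPeriod f a) (h1 : k < l)
    (h2 : l < k + Function.minimalPeriod f a) : f^[k] a ≠ f^[l] a := by
  intro h
  set N := Function.minimalPeriod f a with hNd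
  have h3 : f^[k % N] a = f^[l % N] a := by
    rw [Function.iterate_mod_minimalPeriod_eq, Function.iterate_mod_minimalPeriod_eq, h]
  have h4 := Function.iterate_injOn_Iio_minimalPeriod (Set.mem_Iio.2 (Nat.mod_lt k hN))
    (Set.mem_Iio.2 (Nat.mod_lt l hN)) h3
  have h5 : N ∣ l - k := (Nat.modEq_iff_dvd' h1.le).1 h4
  have h6 := Nat.le_of_dvd (by omega) h5
  omega

/-- Distance to an arc. -/
lemma infDist_arc {η3 ε : ℝ} (h0 : 0 < η3) (hu : ∀ s t, |s - t| < η3 → dist (ρ s) (ρ t) < ε) {lo hi τ : ℝ}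
    (hlh : lo ≤ hi) (h1 : lo - η3 < τ) (h2 : τ < hi + η3) :
    Metric.infDist (ρ τ) (ρ '' Icc lo hi) < ε := by
  have hm : ρ (max lo (min τ hi)) ∈ ρ '' Icc lo hi :=
    ⟨_, ⟨le_max_left _ _, max_le hlh (min_le_right _ _)⟩, rfl⟩
  refine (Metric.infDist_le_dist_of_mem hm).trans_lt (hu _ _ ?_)
  rcases le_total τ hi with h3 | h3
  · rw [min_eq_left h3]
    rcases le_total lo τ with h4 | h4
    · rw [max_eq_right h4, sub_self, abs_zero]; exact h0
    · rw [max_eq_left h4, abs_lt]; constructor <;> linarith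
  · rw [min_eq_right h3, max_eq_right hlh, abs_lt]; constructor <;> linarith

theorem local_lit (hJ : IsJD D ρ)
    (hvar : ∀ s t, s ≤ t → t ≤ s + 2 * π → eVariationOn ρ (Icc s t) ≠ ⊤) {z0 : ℂ} (hz0 : z0 ∈ D)
    {L : ℝ → ℂ} (hLc : Continuous L) (hL : ∀ t, Complex.exp (L t) = ρ t - z0)
    (hW : ∀ t, (L (t + 2 * π)).im = (L t).im + 2 * π) {sa sb : ℝ} (hab : sa < sb)
    (hba : sb < sa + 2 * π) {r : ℝ} (hr : 0 < r) {ε : ℝ} (hε : 0 < ε) :
    ∃ ε' > 0, ∀ δ, 0 < δ → δ < ε' → ∀ X : DDomain, LitD D δ X →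
      (∀ u : ℤ × ℤ, ‖pt δ u - z0‖ < r → u ∈ X.V) →
      ‖pt δ X.α.1 - ρ sa‖ < ε' → ‖pt δ X.β.1 - ρ sb‖ < ε' →
      (∀ c ∈ X.wired, Metric.infDist (pt δ c.1) (ρ '' Icc sa sb) < ε) ∧
      (∀ c ∈ X.dual, Metric.infDist (pt δ c.1) (ρ '' Icc sb (sa + 2 * π)) < ε) := by
  have hpi := Real.two_pi_pos
  have hpi1 := Real.pi_pos
  obtain ⟨η3, hη3, hunif⟩ := hJ.loop.uniform (ε := ε / 2) (by positivity)
  have hmin : 0 < min (sb - sa) (sa + 2 * π - sb) := lt_min (by linarith) (by linarith)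
  set η := min (η3 / 4) (min (min (sb - sa) (sa + 2 * π - sb) / 8) π) with hηd
  have hη : 0 < η := by positivity
  have hη1 : η ≤ η3 / 4 := min_le_left _ _
  have hη2 : η ≤ min (sb - sa) (sa + 2 * π - sb) / 8 := (min_le_right _ _).trans (min_le_left _ _)
  have hη3' : η ≤ π := (min_le_right _ _).trans (min_le_right _ _)
  have hη4 : 8 * η ≤ sb - sa := by linarith [min_le_left (sb - sa) (sa + 2 * π - sb)]
  have hη5 : 8 * η ≤ sa + 2 * π - sb := by linarith [min_le_right (sb - sa) (sa + 2 * π - sb)]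
  obtain ⟨ε1, hε1, hback⟩ := no_back hJ hvar hη hη3'
  obtain ⟨κ, hκ, hinv⟩ := hJ.loop.uniform_inv hη
  obtain ⟨ε2, hε2, hlift⟩ := lift hJ hz0 hLc hL hW (ω := ε1 / 2) (by positivity)
  refine ⟨min (min ε1 (ε2 / 4)) (min (κ / 6) (min (ε / 12) (r / 4))), by positivity, ?_⟩
  intro δ hδ hδε X hX hbulk hα hβ
  simp only [lt_min_iff] at hδε hα hβ
  obtain ⟨⟨k1, k2⟩, k3, k4, k5⟩ := hδε
  -- the face
  obtain ⟨g, hg⟩ := exists_sq hδ z0
  obtain ⟨g1, g2, g3, g4⟩ := hg
  have hgc : ‖ctr δ g - z0‖ ≤ 2 * δ := by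
    refine (Complex.norm_le_abs_re_add_abs_im _).trans ?_
    simp only [Complex.sub_re, Complex.sub_im, ctr]
    have e1 : |δ * ((g.1 : ℝ) + 1 / 2) - z0.re| ≤ δ := by rw [abs_le]; constructor <;> linarith
    have e2 : |δ * ((g.2 : ℝ) + 1 / 2) - z0.im| ≤ δ := by rw [abs_le]; constructor <;> linarith
    linarith
  have hoffb : ∀ q : ZMod 4, (0 : ℝ) ≤ (off q).1 ∧ ((off q).1 : ℝ) ≤ 1 ∧ (0 : ℝ) ≤ (off q).2 ∧
      ((off q).2 : ℝ) ≤ 1 := by
    have hoff : ∀ q : ZMod 4, 0 ≤ (off q).1 ∧ (off q).1 ≤ 1 ∧ 0 ≤ (off q).2 ∧ (off q).2 ≤ 1 := by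
      decide
    intro q
    obtain ⟨h1, h2, h3, h4⟩ := hoff q
    exact ⟨by exact_mod_cast h1, by exact_mod_cast h2, by exact_mod_cast h3, by exact_mod_cast h4⟩
  have hgV : ∀ q : ZMod 4, g + off q ∈ X.V := by
    intro q
    apply hbulk
    obtain ⟨o1, o2, o3, o4⟩ := hoffb q
    have h5 : ‖pt δ (g + off q) - z0‖ ≤ 2 * δ := by
      refine (Complex.norm_le_abs_re_add_abs_im _).trans ?_
      simp only [Complex.sub_re, Complex.sub_im, pt, Prod.fst_add, Prod.snd_add]
      push_cast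
      have e1 : |δ * ((g.1 : ℝ) + (off q).1) - z0.re| ≤ δ := by
        rw [abs_le]; constructor <;> nlinarith
      have e2 : |δ * ((g.2 : ℝ) + (off q).2) - z0.im| ≤ δ := by
        rw [abs_le]; constructor <;> nlinarith
      linarith
    linarith
  have hface : FaceIn X g := by
    intro q
    refine (hX.edge _ (hgV q) q).2 ?_
    rw [add_assoc, off_dir]
    exact hgV (q + 1)
  -- the starting closed corner
  obtain ⟨r0, -, hr0⟩ := run4 X.memα X.outα
  set a := (next X.E)^[r0] X.α with ha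
  have aV : a.1 ∈ X.V := iter_mem X.memα r0
  have aO : IsOuter X.E a := outer_iter X.outα r0
  have acl : clsd X a := hr0
  set N := Function.minimalPeriod (next X.E) a with hN
  have hNpos : 0 < N := period_pos aV aO
  have hper : (next X.E)^[N] a = a := Function.isPeriodicPt_minimalPeriod _ _
  obtain ⟨s0, hs0⟩ : ∃ s, ρ s = xb D δ a.1 a.2 := by
    have h5 := Pool.Agent.H42.MJ.xb_mem_frontier hJ.isOpen (hX.mem aV acl) (not_op hX aV acl)
    rw [hJ.fr] at h5
    exact h5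
  obtain ⟨T, hT0, hT1, hT2, hT3⟩ := hlift δ hδ (by linarith) X hX a aV aO acl g (by linarith)
    hface s0 hs0
  have hTr : Track δ (ε1 / 2) X a ρ T := by
    refine ⟨?_, ?_, hT2⟩
    · intro k hk
      rw [hT1, lc_of_clsd hk]
      exact xb_mem_segment hJ.isOpen (hX.mem (iter_mem aV k) hk) (not_op hX (iter_mem aV k) hk)
    · intro k
      rw [hT1]
      have := norm_lc hX hJ.isOpen hδ aV aO acl k
      linarith
  have hmono := hback δ hδ k1 (ε1 / 2) (by linarith) X hX a aV T hTr N hNpos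
    (fun k l h1 h2 => iterate_ne hNpos h1 h2) hT3
  -- the marked corners
  obtain ⟨iα, hiα⟩ := orbit_outer X aV X.memα aO X.outα
  obtain ⟨jβ', hjβ'⟩ := orbit_outer X X.memα X.memβ X.outα X.outβ
  classical
  have hex : ∃ j, (next X.E)^[j] X.α = X.β := ⟨jβ', hjβ'⟩
  set jβ := Nat.find hex with hjβ
  have hj1 : (next X.E)^[jβ] X.α = X.β := Nat.find_spec hex
  have hj2 : ∀ j < jβ, (next X.E)^[j] X.α ≠ X.β := fun j hj => Nat.find_min hex hj
  have hαN : (next X.E)^[N] X.α = X.α := by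
    rw [← hiα, ← Function.iterate_add_apply, add_comm, Function.iterate_add_apply, hper]
  have hα_mul : ∀ n, (next X.E)^[n * N] X.α = X.α := by
    intro n
    induction n with
    | zero => simp
    | succ n ih => rw [Nat.succ_mul, Function.iterate_add_apply, hαN, ih]
  have hjN : jβ < N := by
    by_contra hcon
    push Not at hcon
    refine hj2 (jβ - N) (by omega) ?_
    have h5 : (next X.E)^[jβ] X.α = (next X.E)^[jβ - N] X.α := by
      conv_lhs => rw [show jβ = jβ - N + N by omega, Function.iterate_add_apply, hαN]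
    rw [← h5, hj1]
  set iβ := iα + jβ with hiβ
  have hβ1 : (next X.E)^[iβ] a = X.β := by
    rw [hiβ, add_comm, Function.iterate_add_apply, hiα, hj1]
  -- parameters at the marked corners
  have hTα : ∃ n : ℤ, |T iα - sa - n * (2 * π)| < η := by
    apply hinv
    rw [dist_eq_norm]
    have h5 := hTr.near iα
    rw [hiα] at h5
    have h6 := norm_sub_le (pt δ X.α.1 - ρ sa) (pt δ X.α.1 - ρ (T iα))
    rw [sub_sub_sub_cancel_left] at h6
    linarith [hα.2.1]
  have hTβ : ∃ n : ℤ, |T iβ - sb - n * (2 * π)| < η := by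
    apply hinv
    rw [dist_eq_norm]
    have h5 := hTr.near iβ
    rw [hβ1] at h5
    have h6 := norm_sub_le (pt δ X.β.1 - ρ sb) (pt δ X.β.1 - ρ (T iβ))
    rw [sub_sub_sub_cancel_left] at h6
    linarith [hβ.2.1]
  obtain ⟨n, hn⟩ := hTα
  obtain ⟨n', hn'⟩ := hTβ
  rw [abs_lt] at hn hn'
  have m1 := hmono iα iβ (by omega)
  have m2 := hmono iβ (iα + N) (by omega)
  rw [hT3] at m2
  have hnn : n' = n - 1 := by
    have h7 : ((n' : ℝ) - n) * (2 * π) < 0 := by nlinarith
    have h8 : -(2 * π) < ((n' : ℝ) - n + 1) * (2 * π) := by nlinarith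
    have h9 : (n' : ℝ) - n < 0 := by
      by_contra h
      push Not at h
      nlinarith
    have h10 : (-1 : ℝ) < (n' : ℝ) - n + 1 := by
      by_contra h
      push Not at h
      nlinarith
    have h11 : n' - n < 0 := by exact_mod_cast h9
    have h12 : -1 < n' - n + 1 := by exact_mod_cast h10
    omega
  subst hnn
  push_cast at hn'
  have shift : ∀ k, ρ (T k) = ρ (T k - (n - 1) * (2 * π)) := by
    intro k
    have := hJ.loop.add_int (T k - (n - 1) * (2 * π)) (n - 1)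
    push_cast at this
    rw [sub_add_cancel] at this
    exact this
  have fin : ∀ (k : ℕ) (lo hi : ℝ), lo ≤ hi → lo - η3 < T k - (n - 1) * (2 * π) →
      T k - (n - 1) * (2 * π) < hi + η3 →
      Metric.infDist (pt δ ((next X.E)^[k] a).1) (ρ '' Icc lo hi) < ε := by
    intro k lo hi h1 h2 h3
    have h4 := infDist_arc hη3 hunif h1 h2 h3
    rw [← shift] at h4
    have h5 := hTr.near k
    have h6 := Metric.infDist_le_infDist_add_dist (s := ρ '' Icc lo hi)
      (x := pt δ ((next X.E)^[k] a).1) (y := ρ (T k))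
    rw [dist_eq_norm] at h6
    linarith
  constructor
  · rintro c ⟨i, hi, rfl⟩
    have hiN : i ≤ N - jβ := by
      by_contra hcon
      push Not at hcon
      refine hi (N - jβ) hcon ?_
      rw [← hj1, ← Function.iterate_add_apply, show N - jβ + jβ = N by omega, hαN]
    have hk : (next X.E)^[i] X.β = (next X.E)^[iβ + i] a := by
      rw [add_comm, Function.iterate_add_apply, hβ1]
    rw [hk]
    have e1 := hmono iβ (iβ + i) (by omega)
    have e2 := hmono (iβ + i) (iα + N) (by omega)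
    rw [hT3] at e2
    refine fin _ _ _ hab.le ?_ ?_ <;> linarith
  · rintro c ⟨i, hi, rfl⟩
    have hij : i ≤ jβ := by
      by_contra hcon
      push Not at hcon
      exact hi jβ hcon hj1
    have hk : (next X.E)^[i] X.α = (next X.E)^[iα + i] a := by
      rw [add_comm, Function.iterate_add_apply, hiα]
    rw [hk]
    have e1 := hmono iα (iα + i) (by omega)
    have e2 := hmono (iα + i) iβ (by omega)
    refine fin _ _ _ hba.le ?_ ?_ <;> linarith

end Pool.Agent.H4.Lit
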